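import Pool.Agent.W744.GL.Stm
import Pool.Agent.Helper503.Gp.Cay

set_option autoImplicit false

/-! GL-DIV: division by `g0 - exp (2 π i ζ)`. -/

open Metric Set Filter Topology Complex
open scoped ComplexConjugate

namespace Pool.Agent.W196.GL.DIV

open Pool.Agent.W744.GL
open Pool.Agent.Helper503.Gp (HI cay cay_mem cay_surj)

open Classical in
/-- the quotient with removed singularities -/
noncomputable def quo (f q : ℂ → ℂ) (z : ℂ) : ℂ :=
  if q z = 0 then deriv f z / deriv q z else f z / q z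

theorem quo_diff {f q : ℂ → ℂ} {U : Set ℂ} (hU : IsOpen U) (hf : DifferentiableOn ℂ f U)
    (hq : DifferentiableOn ℂ q U) (hz : ∀ z ∈ U, q z = 0 → deriv q z ≠ 0 ∧ f z = 0) :
    DifferentiableOn ℂ (quo f q) U := by
  intro z₀ hz₀
  have hUn : U ∈ 𝓝 z₀ := hU.mem_nhds hz₀
  apply DifferentiableAt.differentiableWithinAt
  by_cases h0 : q z₀ = 0
  · obtain ⟨hd, hf0⟩ := hz z₀ hz₀ h0
    have hF : DifferentiableAt ℂ (dslope f z₀) z₀ :=
      ((Complex.differentiableOn_dslope hUn).2 hf).differentiableAt hUn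
    have hQ : DifferentiableAt ℂ (dslope q z₀) z₀ :=
      ((Complex.differentiableOn_dslope hUn).2 hq).differentiableAt hUn
    have hQ0 : dslope q z₀ z₀ ≠ 0 := by rw [dslope_same]; exact hd
    have hev : ∀ᶠ z in 𝓝 z₀, dslope q z₀ z ≠ 0 := hQ.continuousAt.eventually_ne hQ0
    have heq : quo f q =ᶠ[𝓝 z₀] fun z => dslope f z₀ z / dslope q z₀ z := by
      filter_upwards [hev] with z hz1
      by_cases hzz : z = z₀
      · subst hzz
        unfold quo
        rw [if_pos h0, dslope_same, dslope_same]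
      · have h1 : q z = (z - z₀) * dslope q z₀ z := by
          have := sub_smul_dslope q z₀ z
          rw [h0, sub_zero, smul_eq_mul] at this
          exact this.symm
        have h2 : f z = (z - z₀) * dslope f z₀ z := by
          have := sub_smul_dslope f z₀ z
          rw [hf0, sub_zero, smul_eq_mul] at this
          exact this.symm
        have h3 : z - z₀ ≠ 0 := sub_ne_zero.2 hzz
        have h4 : q z ≠ 0 := by rw [h1]; exact mul_ne_zero h3 hz1
        unfold quo
        rw [if_neg h4, h1, h2, mul_div_mul_left _ _ h3]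
    exact (hF.div hQ hQ0).congr_of_eventuallyEq heq
  · have hfd : DifferentiableAt ℂ f z₀ := hf.differentiableAt hUn
    have hqd : DifferentiableAt ℂ q z₀ := hq.differentiableAt hUn
    have hev : ∀ᶠ z in 𝓝 z₀, q z ≠ 0 := hqd.continuousAt.eventually_ne h0
    have heq : quo f q =ᶠ[𝓝 z₀] fun z => f z / q z := by
      filter_upwards [hev] with z hz1
      unfold quo
      rw [if_neg hz1]
    exact (hfd.div hqd h0).congr_of_eventuallyEq heq

theorem g0_deriv {z : ℂ} (hz : z ∈ ball (0 : ℂ) 1) :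
    HasDerivAt g0 (g0 z * (-(2 * Real.pi) * (2 / (1 - z) ^ 2))) z := by
  have hz1 : (1 : ℂ) - z ≠ 0 := by
    intro h
    have h' : z = 1 := by linear_combination -h
    rw [h', mem_ball_zero_iff] at hz
    simp at hz
  have h1 : HasDerivAt (fun z : ℂ => (1 + z) / (1 - z)) (2 / (1 - z) ^ 2) z := by
    have h2 : HasDerivAt (fun z : ℂ => 1 + z) 1 z := (hasDerivAt_id z).const_add 1
    have h3 : HasDerivAt (fun z : ℂ => 1 - z) (-1) z := (hasDerivAt_id z).const_sub 1
    have h4 := h2.div h3 hz1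
    have h5 : (1 * (1 - z) - (1 + z) * (-1)) / (1 - z) ^ 2 = 2 / (1 - z) ^ 2 := by
      congr 1; ring
    rw [h5] at h4
    exact h4
  have h2 := (h1.const_mul (-(2 * (Real.pi : ℂ)))).cexp
  exact h2

theorem main (hG : S_G0) : Pool.Agent.W744.GL.S_DIV := by
  intro ζ hζ f hf hf0
  obtain ⟨hg1, -, hg3, hg4⟩ := hG
  set c : ℂ := Complex.exp (2 * Real.pi * I * ζ) with hc
  have hc0 : c ≠ 0 := Complex.exp_ne_zero _
  set q : ℂ → ℂ := fun z => g0 z - c with hq
  have hqd : DifferentiableOn ℂ q (ball (0 : ℂ) 1) := hg1.1.sub (differentiableOn_const c)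
  have hpi : (2 * (Real.pi : ℂ) * I) ≠ 0 := Complex.two_pi_I_ne_zero
  have hzero : ∀ z ∈ ball (0 : ℂ) 1, q z = 0 → deriv q z ≠ 0 ∧ f z = 0 := by
    intro z hz hqz
    constructor
    · have h1 : HasDerivAt q (g0 z * (-(2 * Real.pi) * (2 / (1 - z) ^ 2))) z :=
        (g0_deriv hz).sub_const c
      rw [h1.deriv]
      have hz1 : (1 : ℂ) - z ≠ 0 := by
        intro h
        have h' : z = 1 := by linear_combination -h
        rw [h', mem_ball_zero_iff] at hz
        simp at hz
      have hpi2 : (Real.pi : ℂ) ≠ 0 := by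
        rw [Complex.ofReal_ne_zero]; exact Real.pi_ne_zero
      refine mul_ne_zero (hg3 z hz) (mul_ne_zero ?_ ?_)
      · exact neg_ne_zero.2 (mul_ne_zero two_ne_zero hpi2)
      · exact div_ne_zero two_ne_zero (pow_ne_zero 2 hz1)
    · obtain ⟨w, hw, rfl⟩ := cay_surj hz
      have h1 : Complex.exp (2 * Real.pi * I * w) = Complex.exp (2 * Real.pi * I * ζ) := by
        have h2 : g0 (cay w) - c = 0 := hqz
        rw [hg4 w hw] at h2
        exact sub_eq_zero.1 h2
      rw [Complex.exp_eq_exp_iff_exists_int] at h1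
      obtain ⟨n, hn⟩ := h1
      have h3 : w = lat ζ n := by
        unfold lat
        have h4 : (2 * (Real.pi : ℂ) * I) * w = (2 * (Real.pi : ℂ) * I) * ((n : ℂ) + ζ) := by
          rw [hn]; ring
        exact mul_left_cancel₀ hpi h4
      rw [h3]; exact hf0 n
  set h : ℂ → ℂ := quo f q with hh
  have hhd : DifferentiableOn ℂ h (ball (0 : ℂ) 1) := quo_diff isOpen_ball hf.1 hqd hzero
  obtain ⟨C, hC⟩ := hf.2
  set r₀ : ℝ := min (1 / 4) (ζ.im / 2) with hr₀
  have hr0pos : 0 < r₀ := by
    rw [hr₀]; exact lt_min (by norm_num) (by linarith)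
  have hr0a : r₀ ≤ 1 / 4 := min_le_left _ _
  have hr0b : r₀ ≤ ζ.im / 2 := min_le_right _ _
  -- continuity of the logarithm
  obtain ⟨δ, hδ, hδ1, hlog⟩ : ∃ δ : ℝ, 0 < δ ∧ δ ≤ 1 ∧ ∀ v : ℂ, ‖v - 1‖ < δ →
      ‖Complex.log v‖ < 2 * Real.pi * r₀ := by
    have h1 : ContinuousAt Complex.log 1 := continuousAt_clog Complex.one_mem_slitPlane
    rw [Metric.continuousAt_iff] at h1
    obtain ⟨δ, hδ, h2⟩ := h1 (2 * Real.pi * r₀) (by positivity)
    refine ⟨min δ 1, lt_min hδ one_pos, min_le_right _ _, ?_⟩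
    intro v hv
    have h3 := h2 (x := v) (by rw [dist_eq_norm]; exact lt_of_lt_of_le hv (min_le_left _ _))
    rw [Complex.log_one, dist_zero_right] at h3
    exact h3
  have hcn : 0 < ‖c‖ := norm_pos_iff.2 hc0
  have hdich : ∀ w : ℂ, ‖Complex.exp (2 * Real.pi * I * w) - c‖ < δ * ‖c‖ →
      ∃ n : ℤ, ‖w - lat ζ n‖ < r₀ := by
    intro w hw
    set v : ℂ := Complex.exp (2 * Real.pi * I * (w - ζ)) with hv
    have hv1 : v * c = Complex.exp (2 * Real.pi * I * w) := by
      rw [hv, hc, ← Complex.exp_add]; congr 1; ring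
    have hv2 : ‖v - 1‖ < δ := by
      have h1 : (v - 1) * c = Complex.exp (2 * Real.pi * I * w) - c := by
        rw [← hv1]; ring
      rw [← h1, norm_mul] at hw
      exact lt_of_mul_lt_mul_right hw hcn.le
    have hv3 : v ≠ 0 := Complex.exp_ne_zero _
    have h2 : Complex.exp (2 * Real.pi * I * (w - ζ)) = Complex.exp (Complex.log v) := by
      rw [Complex.exp_log hv3]
    rw [Complex.exp_eq_exp_iff_exists_int] at h2
    obtain ⟨n, hn⟩ := h2
    refine ⟨n, ?_⟩
    have h3 : (2 * (Real.pi : ℂ) * I) * (w - lat ζ n) = Complex.log v := by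
      unfold lat
      have h4 : (2 * (Real.pi : ℂ) * I) * (w - ((n : ℂ) + ζ)) =
          2 * Real.pi * I * (w - ζ) - n * (2 * Real.pi * I) := by ring
      rw [h4, hn]; ring
    have h5 := hlog v hv2
    rw [← h3, norm_mul, norm_mul, norm_mul, Complex.norm_I, Complex.norm_real,
      Real.norm_of_nonneg Real.pi_pos.le, mul_one] at h5
    have h6 : ‖(2 : ℂ)‖ = 2 := by simp
    rw [h6] at h5
    exact lt_of_mul_lt_mul_left h5 (by positivity)
  set M : ℝ := max C 0 / (δ * ‖c‖) with hM
  have hδc : 0 < δ * ‖c‖ := mul_pos hδ hcn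
  have hbd1 : ∀ w : ℂ, 0 < w.im → δ * ‖c‖ ≤ ‖Complex.exp (2 * Real.pi * I * w) - c‖ →
      ‖h (cay w)‖ ≤ M := by
    intro w hw hge
    have hqv : q (cay w) = Complex.exp (2 * Real.pi * I * w) - c := by
      rw [hq]; simp only; rw [hg4 w hw]
    have hq0 : q (cay w) ≠ 0 := by
      rw [hqv]
      intro h0
      rw [h0, norm_zero] at hge
      linarith
    rw [hh]
    unfold quo
    rw [if_neg hq0, norm_div, hqv, hM]
    exact div_le_div₀ (le_max_right _ _) ((hC _ (cay_mem hw)).trans (le_max_left _ _)) hδc hge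
  have hlatim : ∀ n : ℤ, (lat ζ n).im = ζ.im := by
    intro n; unfold lat; simp
  have hball : ∀ n : ℤ, closedBall (lat ζ n) r₀ ⊆ {w : ℂ | 0 < w.im} := by
    intro n w hw
    rw [mem_closedBall, dist_eq_norm] at hw
    have h1 : |(w - lat ζ n).im| ≤ r₀ := (Complex.abs_im_le_norm _).trans hw
    rw [Complex.sub_im, hlatim] at h1
    have h2 := (abs_le.1 h1).1
    show 0 < w.im
    linarith
  have hHd : DifferentiableOn ℂ (fun w => h (cay w)) {w : ℂ | 0 < w.im} := by
    apply hhd.comp (t := ball (0 : ℂ) 1)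
    · intro w hw
      apply DifferentiableAt.differentiableWithinAt
      have hne : w + I ≠ 0 := by
        intro h0
        have h1 := congrArg Complex.im h0
        simp at h1
        have h2 : 0 < w.im := hw
        linarith
      unfold cay
      exact (differentiableAt_id.sub_const I).div (differentiableAt_id.add_const I) hne
    · intro w hw
      exact cay_mem hw
  have hbd : ∀ w : ℂ, 0 < w.im → ‖h (cay w)‖ ≤ M := by
    intro w hw
    rcases le_or_gt (δ * ‖c‖) ‖Complex.exp (2 * Real.pi * I * w) - c‖ with hge | hlt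
    · exact hbd1 w hw hge
    · obtain ⟨n, hn⟩ := hdich w hlt
      have hdc : DiffContOnCl ℂ (fun w => h (cay w)) (ball (lat ζ n) r₀) :=
        hHd.diffContOnCl_ball (hball n)
      refine Complex.norm_le_of_forall_mem_frontier_norm_le isBounded_ball hdc ?_
        (subset_closure (by rw [mem_ball, dist_eq_norm]; exact hn))
      intro w' hw'
      rw [frontier_ball _ hr0pos.ne', mem_sphere, dist_eq_norm] at hw'
      have hw'im : 0 < w'.im := hball n (by rw [mem_closedBall, dist_eq_norm]; exact hw'.le)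
      apply hbd1 w' hw'im
      by_contra hlt'
      push Not at hlt'
      obtain ⟨n', hn'⟩ := hdich w' hlt'
      have h1 : ‖((n' - n : ℤ) : ℂ)‖ < 1 := by
        have h2 : ((n' - n : ℤ) : ℂ) = (w' - lat ζ n) - (w' - lat ζ n') := by
          unfold lat; push_cast; ring
        rw [h2]
        have h3 := norm_sub_le (w' - lat ζ n) (w' - lat ζ n')
        linarith
      rw [Complex.norm_intCast] at h1
      have h4 : |n' - n| < 1 := by
        have : ((|n' - n| : ℤ) : ℝ) < 1 := by
          rw [Int.cast_abs]; exact h1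
        exact_mod_cast this
      have h5 : n' = n := by
        rw [Int.abs_lt_one_iff] at h4
        omega
      rw [h5] at hn'
      linarith
  refine ⟨h, ⟨hhd, M, ?_⟩, ?_⟩
  · intro z hz
    obtain ⟨w, hw, rfl⟩ := cay_surj hz
    exact hbd w hw
  · intro z hz
    show f z = q z * h z
    rw [hh]
    unfold quo
    by_cases h0 : q z = 0
    · rw [if_pos h0, h0, zero_mul]
      exact (hzero z hz h0).2
    · rw [if_neg h0, mul_div_cancel₀ _ h0]

end Pool.Agent.W196.GL.DIV
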